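import Pool.Agent.R161.GR.Defs

/-!
Piece (VAN) of MP_57d9fd_an: calculus of functions vanishing to order `N` at a point.
-/

open scoped ContDiff Matrix Matrix.Norms.Elementwise
open Filter Finset

namespace Pool.Agent.R560.GR

open Pool.Agent.R161.GR

variable {n : ℕ}

theorem mul_zero_of {A B : Mt n → ℂ} (hA : ContDiff ℝ ∞ A) (hB : ContDiff ℝ ∞ B) {P : Mt n}
    {j : ℕ} (h : ∀ i ≤ j, iteratedFDeriv ℝ i A P = 0 ∨ iteratedFDeriv ℝ (j - i) B P = 0) :
    iteratedFDeriv ℝ j (fun x => A x * B x) P = 0 := by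
  have h1 := norm_iteratedFDeriv_mul_le (n := j) (N := ∞) hA hB P (by exact_mod_cast le_top)
  have h2 : ∑ i ∈ range (j + 1), (j.choose i : ℝ) * ‖iteratedFDeriv ℝ i A P‖ *
      ‖iteratedFDeriv ℝ (j - i) B P‖ = 0 := by
    refine sum_eq_zero fun i hi => ?_
    rcases h i (Nat.lt_succ_iff.1 (mem_range.1 hi)) with h | h
    · rw [h]; simp
    · rw [h]; simp
  rw [h2] at h1
  exact norm_le_zero_iff.1 h1

theorem prod_zero {P : Mt n} : ∀ (m : ℕ) (A : Fin m → Mt n → ℂ), (∀ i, ContDiff ℝ ∞ (A i)) →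
    (∀ i, A i P = 0) → ∀ j < m, iteratedFDeriv ℝ j (fun x => ∏ i, A i x) P = 0 := by
  intro m
  induction m with
  | zero => intro A _ _ j hj; exact absurd hj (Nat.not_lt_zero _)
  | succ m ih =>
    intro A hA hP j hj
    have e : (fun x => ∏ i, A i x) = fun x => A 0 x * ∏ i : Fin m, A i.succ x := by
      funext x; rw [Fin.prod_univ_succ]
    rw [e]
    refine mul_zero_of (hA 0) (contDiff_prod fun i _ => hA i.succ) fun i hi => ?_
    rcases Nat.eq_zero_or_pos i with rfl | hi0
    · left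
      rw [← norm_eq_zero, norm_iteratedFDeriv_zero, hP 0, norm_zero]
    · right
      exact ih (fun i => A i.succ) (fun i => hA _) (fun i => hP _) (j - i) (by omega)

theorem s_van : S_van := by
  intro n N P
  refine ⟨?_, ?_, ?_, ?_⟩
  · intro A B hA hB h j hj
    exact mul_zero_of hA hB fun i hi => Or.inl (h i (hi.trans hj))
  · intro m A hA hP hm j hj
    exact prod_zero m A hA hP j (lt_of_le_of_lt hj hm)
  · intro A hA j _
    have h1 : A =ᶠ[nhds P] fun _ => (0 : ℂ) := hA
    rw [Filter.EventuallyEq.eq_of_nhds (h1.iteratedFDeriv ℝ j)]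
    simp
  · intro A B hA hB h1 h2 j hj
    have := iteratedFDeriv_add_apply (𝕜 := ℝ) (i := j) (f := A) (g := B) (x := P)
      ((hA.of_le (by exact_mod_cast le_top)).contDiffAt)
      ((hB.of_le (by exact_mod_cast le_top)).contDiffAt)
    have e : (fun x => A x + B x) = A + B := rfl
    rw [e, this, h1 j hj, h2 j hj, add_zero]

end Pool.Agent.R560.GR
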